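import Pool.Agent.Helper84.OB.Stmts

/-! # Row JN (MP_ab4175_co) -/

set_option autoImplicit false

universe u

namespace Pool.Agent.Helper76.OB

open Set Pool.Agent.Helper84.BT Pool.Agent.Helper84.OB
open scoped Matroid

/-- row JN -/
theorem st_JN (hMI : ST_MI.{u}) (hNU : ST_NU.{u}) (hSK : ST_SK.{u}) : ST_JN.{u} := by
  intro α _ M X Y F₁ F₂ hM hP hO1 hF1 hn1 hO2 hF2 hn2
  by_contra hcon
  push Not at hcon
  obtain ⟨c1, e1, k1, r1⟩ := hSK α M X Y F₁ hP hO1 hF1 hn1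
  obtain ⟨c2, e2, k2, r2⟩ := hSK α M X Y F₂ hP hO2 hF2 hn2
  set A₁ := cyc M F₁ with hA1
  set A₂ := cyc M F₂ with hA2
  set K := X ∩ Y with hK
  have hKE : K ⊆ M.E := fun x hx => hP.hX.isCyclic.subset_ground hx.1
  have hAX1 : A₁ ⊆ X := cyc_subset.trans hF1
  have hAX2 : A₂ ⊆ X := cyc_subset.trans hF2
  have i1 : A₁ ∩ Y = A₁ ∩ K := by
    ext x
    simp only [hK, mem_inter_iff]
    constructor
    · rintro ⟨h1, h2⟩; exact ⟨h1, hAX1 h1, h2⟩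
    · rintro ⟨h1, -, h2⟩; exact ⟨h1, h2⟩
  have i2 : A₂ ∩ Y = A₂ ∩ K := by
    ext x
    simp only [hK, mem_inter_iff]
    constructor
    · rintro ⟨h1, h2⟩; exact ⟨h1, hAX2 h1, h2⟩
    · rintro ⟨h1, -, h2⟩; exact ⟨h1, h2⟩
  have i3 : A₁ ∩ A₂ ∩ Y = A₁ ∩ A₂ ∩ K := by
    ext x
    simp only [hK, mem_inter_iff]
    constructor
    · rintro ⟨⟨h1, h3⟩, h2⟩; exact ⟨⟨h1, h3⟩, hAX1 h1, h2⟩
    · rintro ⟨h1, -, h2⟩; exact ⟨h1, h2⟩
  have m1 := hMI α M hM A₁ A₂ Y c1.isCyclic c2.isCyclic hP.hY.isCyclic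
  rw [i3] at m1
  rw [i1] at r1
  rw [i2] at r2
  have m2 : rk M (A₁ ∪ A₂ ∪ Y) ≤ rk M (X ∪ Y) :=
    rk_mono M (union_subset_union_left _ (union_subset hAX1 hAX2))
  have m3 := rk_submod (M := M) (A₁ ∪ A₂) K
  have m4 : rk M (F₁ ∪ F₂) ≤ rk M (A₁ ∪ A₂ ∪ K) := by
    apply rk_mono M
    rw [e1, e2]
    intro x hx
    simp only [mem_union] at hx ⊢
    tauto
  have n1 := hNU α M (A₁ ∩ K) K hKE (subset_inter k1 cyc_subset) inter_subset_right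
  have n2 := hNU α M (A₂ ∩ K) K hKE (subset_inter k2 cyc_subset) inter_subset_right
  have n3 := hNU α M ((A₁ ∪ A₂) ∩ K) K hKE
    (subset_inter (k1.trans subset_union_left) cyc_subset) inter_subset_right
  have n4 := hNU α M (A₁ ∩ A₂ ∩ K) K hKE
    (subset_inter (subset_inter k1 k2) cyc_subset) inter_subset_right
  have n5 := ncard_union_add_ncard_inter (A₁ ∩ K) (A₂ ∩ K) (toFinite _) (toFinite _)
  have n6 : A₁ ∩ K ∪ A₂ ∩ K = (A₁ ∪ A₂) ∩ K := by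
    rw [union_inter_distrib_right]
  have n7 : A₁ ∩ K ∩ (A₂ ∩ K) = A₁ ∩ A₂ ∩ K := by
    ext x
    simp only [mem_inter_iff]
    tauto
  rw [n6, n7] at n5
  have hpos := hP.pos
  rw [← hK] at hpos
  omega

end Pool.Agent.Helper76.OB
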